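import Pool.Agent.V11142.TC.Law

/-!
# Chains of laws along tight walks
-/

set_option autoImplicit false

namespace Pool.Agent.V11142.TC

open Finset Function
open scoped Classical

variable {V : Type} [Fintype V]

/-- The coordinate which is changed at the position `p`. -/
def co (p : ℕ) : Fin 3 := ⟨p % 3, Nat.mod_lt _ (by norm_num)⟩

/-- All eight mixtures of the two triples are edges. -/
def Oct (E : (Fin 3 → V) → Prop) (s : St V) : Prop :=
  ∀ σ : Fin 3 → Bool, E fun c => if σ c then s.1 c else s.2 c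

/-- The number of ways to continue from the state `s` at the position `p` for `t` steps to a state
with `Oct`. -/
noncomputable def cnt (E : (Fin 3 → V) → Prop) : ℕ → ℕ → St V → ℝ
  | 0, _, s => if Oct E s then 1 else 0
  | t + 1, p, s => ∑ w, if E (upd (co p) s w).2 then cnt E t (p + 1) (upd (co p) s w) else 0

theorem cnt_nonneg (E : (Fin 3 → V) → Prop) (t p : ℕ) (s : St V) : 0 ≤ cnt E t p s := by
  induction t generalizing p s with
  | zero =>
    unfold cnt
    split_ifs <;> norm_num
  | succ t ih =>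
    unfold cnt
    refine sum_nonneg fun w _ => ?_
    split_ifs
    · exact ih _ _
    · exact le_refl _

variable (E : (Fin 3 → V) → Prop)

/-- `cnt E t p` is positive on the support of `β` and the expectation of its logarithm is at least
`c`. -/
def Good (t p : ℕ) (β : St V → ℝ) (c : ℝ) : Prop :=
  (∀ s, β s ≠ 0 → 0 < cnt E t p s) ∧ c ≤ ∑ s, β s * Real.log (cnt E t p s)

variable {E}

theorem Good.mono {t p : ℕ} {β : St V → ℝ} {c c' : ℝ} (h : Good E t p β c) (hc : c' ≤ c) :
    Good E t p β c' := ⟨h.1, hc.trans h.2⟩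

theorem good_step [Nonempty V] {t p : ℕ} {β β' : St V → ℝ} {c : ℝ} (hm : mE E ≠ 0)
    (hβ : IsLaw E β) (hβ' : IsLaw E β') (hmarg : ∀ s, marg (co p) β s = marg (co p) β' s)
    (h : Good E t (p + 1) β' c) : Good E (t + 1) p β (c + cent (co p) β') := by
  refine ⟨fun s hs => ?_, ?_⟩
  · have h1 : 0 < marg (co p) β s :=
      lt_of_lt_of_le (lt_of_le_of_ne (hβ.nonneg s) (Ne.symm hs)) (le_marg hβ.nonneg _ s)
    rw [hmarg] at h1
    have h2 : ∃ w, β' (upd (co p) s w) ≠ 0 := by
      by_contra hc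
      push Not at hc
      unfold marg at h1
      rw [sum_eq_zero fun w _ => hc w] at h1
      exact lt_irrefl _ h1
    obtain ⟨w, hw⟩ := h2
    have h3 : E (upd (co p) s w).2 := hβ'.supp _ hw
    have h4 := h.1 _ hw
    change 0 < ∑ w, if E (upd (co p) s w).2 then cnt E t (p + 1) (upd (co p) s w) else 0
    refine sum_pos' (fun w _ => ?_) ⟨w, mem_univ _, ?_⟩
    · split_ifs
      · exact cnt_nonneg _ _ _ _
      · exact le_refl _
    · rw [if_pos h3]
      exact h4
  · have h5 := step_ineq hβ' hm (co p) (N' := cnt E t (p + 1)) (cnt_nonneg E t (p + 1)) h.1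
    have h6 : ∑ s, β' s * Real.log
        (∑ w, if E (upd (co p) s w).2 then cnt E t (p + 1) (upd (co p) s w) else 0) =
        ∑ s, β s * Real.log (cnt E (t + 1) p s) := by
      symm
      refine sum_inv (co p) (fun s w => ?_) hmarg
      have h7 : cnt E (t + 1) p (upd (co p) s w) = cnt E (t + 1) p s := by
        change (∑ w', if E (upd (co p) (upd (co p) s w) w').2 then
          cnt E t (p + 1) (upd (co p) (upd (co p) s w) w') else 0) = _
        simp only [upd_upd]
        rfl
      rw [h7]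
    rw [h6] at h5
    have h8 := h.2
    linarith

/-! ### Laws with large entropy -/

variable (E)

/-- The logarithm of the number of vertices. -/
noncomputable def LL (V : Type) [Fintype V] : ℝ := Real.log (Fintype.card V)

/-- The logarithm of the inverse of the density. -/
noncomputable def DD : ℝ := 3 * LL V - Real.log (mE E)

/-- A law of large entropy. -/
def LawC (α : St V → ℝ) : Prop := IsLaw E α ∧ 6 * LL V - 8 * DD E ≤ ent α

variable {E}

theorem dec_le [Nonempty V] {α : St V → ℝ} (h : LawC E α) (hm : 0 < mE E) (i : Fin 3) :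
    ent (Res E i α) - ent α ≤ 8 * DD E := by
  have h1 := Res_law h.1 i
  have h2 := ent_le h1.nonneg (h1.sum_eq_one hm.ne')
  have h3 := h.2
  unfold LL at h3
  linarith

theorem cent_ge' [Nonempty V] {α : St V → ℝ} (h : IsLaw E α) (hm : 0 < mE E) (i : Fin 3) {c : ℝ}
    (hc : ent (Res E i α) - ent α ≤ c) : LL V - DD E - c ≤ cent i α := by
  rw [cent_eq h i]
  have h1 := sum_log_dg_ge h hm i
  unfold DD LL
  linarith

theorem cent_ge [Nonempty V] {α : St V → ℝ} (h : LawC E α) (hm : 0 < mE E) (i : Fin 3) :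
    LL V - 9 * DD E ≤ cent i α := by
  have h1 := cent_ge' h.1 hm i (dec_le h hm i)
  linarith

theorem co_cases (i : Fin 3) (p : ℕ) : i = co p ∨ i = co (p + 1) ∨ i = co (p + 2) := by
  unfold co
  simp only [Fin.ext_iff]
  have := i.2
  omega

theorem round [Nonempty V] (hm : 0 < mE E) {β γ : St V → ℝ} (hβ : LawC E β) (hγ : LawC E γ)
    (i : Fin 3) (hmarg : ∀ s, marg i β s = marg i γ s) {t p : ℕ} {c : ℝ}
    (h : Good E t (p + 3) γ c) : Good E (t + 3) p β (c + 3 * (LL V - 9 * DD E)) := by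
  have hb : ∀ i, LL V - 9 * DD E ≤ cent i β := cent_ge hβ hm
  have hg : ∀ i, LL V - 9 * DD E ≤ cent i γ := cent_ge hγ hm
  rcases co_cases i p with hi | hi | hi
  · subst hi
    have h1 := good_step hm.ne' hγ.1 hγ.1 (fun _ => rfl) h
    have h2 := good_step hm.ne' hγ.1 hγ.1 (fun _ => rfl) h1
    have h3 := good_step hm.ne' hβ.1 hγ.1 hmarg h2
    refine h3.mono ?_
    linarith [hg (co (p + 2)), hg (co (p + 1)), hg (co p)]
  · subst hi
    have h1 := good_step hm.ne' hγ.1 hγ.1 (fun _ => rfl) h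
    have h2 := good_step hm.ne' hβ.1 hγ.1 hmarg h1
    have h3 := good_step hm.ne' hβ.1 hβ.1 (fun _ => rfl) h2
    refine h3.mono ?_
    linarith [hg (co (p + 2)), hg (co (p + 1)), hb (co p)]
  · subst hi
    have h1 := good_step hm.ne' hβ.1 hγ.1 hmarg h
    have h2 := good_step hm.ne' hβ.1 hβ.1 (fun _ => rfl) h1
    have h3 := good_step hm.ne' hβ.1 hβ.1 (fun _ => rfl) h2
    refine h3.mono ?_
    linarith [hg (co (p + 2)), hb (co (p + 1)), hb (co p)]

variable (E)

/-- The laws `β` and `γ` can be exchanged in `k` rounds, in both directions. -/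
def Conn (k : ℕ) (β γ : St V → ℝ) : Prop :=
  (∀ (t p : ℕ) (c : ℝ), Good E t (p + 3 * k) γ c →
    Good E (t + 3 * k) p β (c + 3 * k * (LL V - 9 * DD E))) ∧
  (∀ (t p : ℕ) (c : ℝ), Good E t (p + 3 * k) β c →
    Good E (t + 3 * k) p γ (c + 3 * k * (LL V - 9 * DD E)))

variable {E}

theorem conn_zero (β : St V → ℝ) : Conn E 0 β β := by
  constructor <;> intro t p c h <;> simpa using h

theorem conn_succ [Nonempty V] (hm : 0 < mE E) {k : ℕ} {β γ δ : St V → ℝ} (hc : Conn E k β γ)
    (hγ : LawC E γ) (hδ : LawC E δ) (i : Fin 3) (hmarg : ∀ s, marg i γ s = marg i δ s) :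
    Conn E (k + 1) β δ := by
  constructor
  · intro t p c h
    have e1 : p + 3 * (k + 1) = (p + 3 * k) + 3 := by ring
    rw [e1] at h
    have h1 := round hm hγ hδ i hmarg h
    have h2 := hc.1 _ _ _ h1
    have e2 : t + 3 + 3 * k = t + 3 * (k + 1) := by ring
    rw [e2] at h2
    refine h2.mono (le_of_eq ?_)
    push_cast
    ring
  · intro t p c h
    have e1 : p + 3 * (k + 1) = (p + 3) + 3 * k := by ring
    rw [e1] at h
    have h1 := hc.2 _ _ _ h
    have h2 := round hm hδ hγ i (fun s => (hmarg s).symm) h1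
    have e2 : t + 3 * k + 3 = t + 3 * (k + 1) := by ring
    rw [e2] at h2
    refine h2.mono (le_of_eq ?_)
    push_cast
    ring

theorem exists_nice [Nonempty V] (hm : 0 < mE E) (hD : 0 < DD E) {δ : ℝ} (hδ : 0 < δ)
    {α : St V → ℝ} (hα : LawC E α) :
    ∃ (k : ℕ) (β : St V → ℝ), LawC E β ∧ Conn E k α β ∧ (k : ℝ) * δ ≤ 8 ∧
      ∀ i, ent (Res E i β) - ent β ≤ δ * DD E := by
  by_contra hno
  push Not at hno
  have key : ∀ j : ℕ, ∃ β : St V → ℝ, LawC E β ∧ Conn E j α β ∧
      (j : ℝ) * δ * DD E ≤ ent β - (6 * LL V - 8 * DD E) := by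
    intro j
    induction j with
    | zero =>
      refine ⟨α, hα, conn_zero α, ?_⟩
      have := hα.2
      simp only [Nat.cast_zero, zero_mul]
      linarith
    | succ j ih =>
      obtain ⟨β, h1, h2, h3⟩ := ih
      have h4 := ent_le h1.1.nonneg (h1.1.sum_eq_one hm.ne')
      have h5 : (j : ℝ) * δ ≤ 8 := by
        have h6 : (j : ℝ) * δ * DD E ≤ 8 * DD E := by
          unfold LL at h3
          linarith
        exact le_of_mul_le_mul_right h6 hD
      obtain ⟨i, hi⟩ := hno j β h1 h2 h5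
      have h7 : LawC E (Res E i β) := by
        refine ⟨Res_law h1.1 i, ?_⟩
        have h8 := h1.2
        have h9 : 0 < δ * DD E := mul_pos hδ hD
        linarith
      refine ⟨Res E i β, h7, conn_succ hm h2 h1 h7 i (fun s => (Res_marg h1.1 i s).symm), ?_⟩
      push_cast
      nlinarith
  obtain ⟨j, hj⟩ := exists_nat_gt (8 / δ)
  obtain ⟨β, h1, _, h3⟩ := key j
  have h4 := ent_le h1.1.nonneg (h1.1.sum_eq_one hm.ne')
  have h5 : 8 < (j : ℝ) * δ := by
    rw [div_lt_iff₀ hδ] at hj
    exact hj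
  have h6 : 8 * DD E < (j : ℝ) * δ * DD E := mul_lt_mul_of_pos_right h5 hD
  unfold LL at h3
  linarith

theorem stay [Nonempty V] (hm : 0 < mE E) {β : St V → ℝ} (hβ : LawC E β) {b : ℝ}
    (hb : ∀ i, b ≤ cent i β) (m : ℕ) {t p : ℕ} {c : ℝ} (h : Good E t (p + m) β c) :
    Good E (t + m) p β (c + m * b) := by
  induction m generalizing t p c with
  | zero => simpa using h
  | succ m ih =>
    have e1 : p + (m + 1) = (p + m) + 1 := by ring
    rw [e1] at h
    have h1 := good_step hm.ne' hβ.1 hβ.1 (fun _ => rfl) h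
    have h2 := ih h1
    have e2 : t + 1 + m = t + (m + 1) := by ring
    rw [e2] at h2
    refine h2.mono ?_
    push_cast
    linarith [hb (co (p + m))]

theorem final_ineq [Nonempty V] (hm : 0 < mE E) {α : St V → ℝ} (hα : IsLaw E α)
    (hoct : ∀ s, α s ≠ 0 → Oct E s) {t p : ℕ} {c : ℝ} (h : Good E t p α c) :
    0 < ∑ s, (if Oct E s then cnt E t p s else 0) ∧
    c + ent α ≤ Real.log (∑ s, if Oct E s then cnt E t p s else 0) := by
  set M : St V → ℝ := fun s => if Oct E s then cnt E t p s else 0 with hM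
  have hM0 : ∀ s, 0 ≤ M s := by
    intro s
    rw [hM]
    dsimp only
    split_ifs
    · exact cnt_nonneg _ _ _ _
    · exact le_refl _
  have hMv : ∀ s, α s ≠ 0 → M s = cnt E t p s := fun s hs => if_pos (hoct s hs)
  have hex : ∃ s, α s ≠ 0 := by
    by_contra hc
    push Not at hc
    have h1 := hα.sum_eq_one hm.ne'
    rw [sum_eq_zero fun s _ => hc s] at h1
    exact zero_ne_one h1
  obtain ⟨s0, hs0⟩ := hex
  have hA : 0 < ∑ s, M s :=
    sum_pos' (fun s _ => hM0 s) ⟨s0, mem_univ _, by rw [hMv s0 hs0]; exact h.1 s0 hs0⟩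
  refine ⟨hA, ?_⟩
  set A : ℝ := ∑ s, M s with hAd
  have hterm : ∀ s, α s - M s / A ≤ α s * Real.log A - α s * Real.log (cnt E t p s) -
      α s * (-Real.log (α s)) := by
    intro s
    by_cases hs : α s = 0
    · rw [hs]
      simp only [zero_mul, zero_sub, sub_zero]
      have : 0 ≤ M s / A := div_nonneg (hM0 s) hA.le
      linarith
    · have hb : 0 < α s := lt_of_le_of_ne (hα.nonneg s) (Ne.symm hs)
      have hc := h.1 s hs
      have h2 := Real.one_sub_inv_le_log_of_pos (x := (A * α s) / cnt E t p s) (by positivity)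
      rw [Real.log_div (by positivity) hc.ne', Real.log_mul hA.ne' hb.ne', inv_div] at h2
      have h3 := mul_le_mul_of_nonneg_left h2 hb.le
      have h4 : α s * (1 - cnt E t p s / (A * α s)) = α s - M s / A := by
        rw [hMv s hs]
        field_simp
      rw [h4] at h3
      linarith
  have h5 := sum_le_sum fun (s : St V) (_ : s ∈ univ) => hterm s
  rw [sum_sub_distrib, sum_sub_distrib, sum_sub_distrib, ← sum_mul, ← sum_div,
    hα.sum_eq_one hm.ne', one_mul, ← hAd, div_self hA.ne'] at h5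
  have h6 := h.2
  have h7 : ent α = ∑ s, α s * (-Real.log (α s)) := rfl
  rw [h7]
  linarith

/-- The main estimate for the number of closed walks. -/
theorem main_abs [Nonempty V] (hm : 0 < mE E) (hD : 0 < DD E) {δ : ℝ} (hδ : 0 < δ)
    {α : St V → ℝ} (hα : LawC E α) (hoct : ∀ s, α s ≠ 0 → Oct E s) :
    ∃ k : ℕ, (k : ℝ) * δ ≤ 8 ∧ ∀ m p : ℕ,
      0 < ∑ s, (if Oct E s then cnt E (3 * (2 * k + m)) p s else 0) ∧
      6 * LL V - 8 * DD E + 6 * k * (LL V - 9 * DD E) + 3 * m * (LL V - (1 + δ) * DD E) ≤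
        Real.log (∑ s, if Oct E s then cnt E (3 * (2 * k + m)) p s else 0) := by
  obtain ⟨k, β, hβ, hc, hk, hnice⟩ := exists_nice hm hD hδ hα
  refine ⟨k, hk, fun m p => ?_⟩
  have hb : ∀ i, LL V - (1 + δ) * DD E ≤ cent i β := by
    intro i
    have := cent_ge' hβ.1 hm i (hnice i)
    linarith
  have h0 : Good E 0 ((p + 3 * k + 3 * m) + 3 * k) α 0 := by
    refine ⟨fun s hs => ?_, ?_⟩
    · unfold cnt
      rw [if_pos (hoct s hs)]
      exact one_pos
    · refine le_of_eq (Eq.symm (sum_eq_zero fun s _ => ?_))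
      by_cases hs : α s = 0
      · rw [hs, zero_mul]
      · unfold cnt
        rw [if_pos (hoct s hs), Real.log_one, mul_zero]
  have h1 := hc.2 _ _ _ h0
  have h2 := stay hm hβ hb (3 * m) h1
  have h3 := hc.1 _ _ _ h2
  have e1 : 0 + 3 * k + 3 * m + 3 * k = 3 * (2 * k + m) := by ring
  rw [e1] at h3
  have h4 := final_ineq hm hα.1 hoct h3
  refine ⟨h4.1, le_trans ?_ h4.2⟩
  have h5 := hα.2
  push_cast
  linarith

end Pool.Agent.V11142.TC
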