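import Pool.Agent.V11142.TC.Chain

/-!
# The law of the octahedron obtained by copying the three coordinates of a uniform edge
-/

set_option autoImplicit false

namespace Pool.Agent.V11142.TC

open Finset Function
open scoped Classical

/-- The function whose sum is the entropy. -/
noncomputable def eta (x : ℝ) : ℝ := x * (-Real.log x)

section Copy

variable {R V : Type} [Fintype R] [Fintype V]

/-- A conditionally independent copy of the second coordinate. -/
noncomputable def cp (μ : R → V → ℝ) (r : R) (v v' : V) : ℝ := μ r v * μ r v' / ∑ u, μ r u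

theorem cp_nonneg {μ : R → V → ℝ} (h : ∀ r v, 0 ≤ μ r v) (r : R) (v v' : V) :
    0 ≤ cp μ r v v' :=
  div_nonneg (mul_nonneg (h _ _) (h _ _)) (sum_nonneg fun _ _ => h _ _)

theorem cp_sum {μ : R → V → ℝ} (h : ∀ r v, 0 ≤ μ r v) (r : R) (v : V) :
    ∑ v', cp μ r v v' = μ r v := by
  unfold cp
  rw [← sum_div, ← mul_sum]
  rcases eq_or_ne (∑ u, μ r u) 0 with h0 | h0
  · rw [h0, div_zero]
    exact ((sum_eq_zero_iff_of_nonneg fun u _ => h r u).1 h0 v (mem_univ v)).symm
  · exact mul_div_cancel_right₀ _ h0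

theorem cp_symm (μ : R → V → ℝ) (r : R) (v v' : V) : cp μ r v v' = cp μ r v' v := by
  unfold cp
  rw [mul_comm (μ r v)]

theorem cp_ne {μ : R → V → ℝ} {r : R} {v v' : V} (h : cp μ r v v' ≠ 0) :
    μ r v ≠ 0 ∧ μ r v' ≠ 0 := by
  unfold cp at h
  constructor
  · intro hc
    exact h (by rw [hc]; simp)
  · intro hc
    exact h (by rw [hc]; simp)

theorem cp_ent [Nonempty R] {μ : R → V → ℝ} (h : ∀ r v, 0 ≤ μ r v)
    (h1 : ∑ r, ∑ v, μ r v = 1) :
    2 * (∑ r, ∑ v, eta (μ r v)) - Real.log (Fintype.card R) ≤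
      ∑ r, ∑ v, ∑ v', eta (cp μ r v v') := by
  set M : R → ℝ := fun r => ∑ u, μ r u with hM
  have hM0 : ∀ r, 0 ≤ M r := fun r => sum_nonneg fun _ _ => h _ _
  have hn : (0 : ℝ) < Fintype.card R := by exact_mod_cast Fintype.card_pos
  have e1 : ∀ r v v', eta (cp μ r v v') = cp μ r v v' * (-Real.log (μ r v)) +
      cp μ r v v' * (-Real.log (μ r v')) + cp μ r v v' * Real.log (M r) := by
    intro r v v'
    by_cases hc : cp μ r v v' = 0
    · unfold eta
      rw [hc]
      simp
    · obtain ⟨ha, hb⟩ := cp_ne hc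
      have hM' : M r ≠ 0 := by
        intro h0
        apply hc
        unfold cp
        change _ / M r = 0
        rw [h0, div_zero]
      unfold eta
      have h2 : Real.log (cp μ r v v') =
          Real.log (μ r v) + Real.log (μ r v') - Real.log (M r) := by
        unfold cp
        rw [Real.log_div (mul_ne_zero ha hb) hM', Real.log_mul ha hb]
      rw [h2]
      ring
  have e2 : ∑ r, ∑ v, ∑ v', eta (cp μ r v v') =
      ∑ r, ∑ v, eta (μ r v) + ∑ r, ∑ v, eta (μ r v) + ∑ r, M r * Real.log (M r) := by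
    rw [← sum_add_distrib, ← sum_add_distrib]
    refine sum_congr rfl fun r _ => ?_
    have a1 : ∑ v, ∑ v', cp μ r v v' * (-Real.log (μ r v)) = ∑ v, eta (μ r v) := by
      refine sum_congr rfl fun v _ => ?_
      rw [← sum_mul, cp_sum h]
      rfl
    have a2 : ∑ v, ∑ v', cp μ r v v' * (-Real.log (μ r v')) = ∑ v, eta (μ r v) := by
      rw [sum_comm]
      refine sum_congr rfl fun v _ => ?_
      rw [← sum_mul]
      have h3 : ∑ i, cp μ r i v = μ r v := by
        simp only [cp_symm μ r _ v]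
        exact cp_sum h r v
      rw [h3]
      rfl
    have a3 : ∑ v, ∑ v', cp μ r v v' * Real.log (M r) = M r * Real.log (M r) := by
      simp only [← sum_mul, cp_sum h]
      rfl
    simp only [e1, sum_add_distrib]
    rw [a1, a2, a3]
  have e3 : -Real.log (Fintype.card R) ≤ ∑ r, M r * Real.log (M r) := by
    have hterm : ∀ r, M r - (Fintype.card R : ℝ)⁻¹ - M r * Real.log (Fintype.card R) ≤
        M r * Real.log (M r) := by
      intro r
      rcases eq_or_lt_of_le (hM0 r) with hs | hs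
      · rw [← hs]
        simp only [zero_mul, zero_sub, sub_zero]
        have : (0 : ℝ) ≤ (Fintype.card R : ℝ)⁻¹ := by positivity
        linarith
      · have h2 := Real.one_sub_inv_le_log_of_pos (x := M r * Fintype.card R) (by positivity)
        rw [Real.log_mul hs.ne' hn.ne'] at h2
        have h3 := mul_le_mul_of_nonneg_left h2 hs.le
        have h4 : M r * (1 - (M r * (Fintype.card R : ℝ))⁻¹) = M r - (Fintype.card R : ℝ)⁻¹ := by
          field_simp
        rw [h4] at h3
        linarith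
    have h5 := sum_le_sum fun (r : R) (_ : r ∈ univ) => hterm r
    rw [sum_sub_distrib, sum_sub_distrib, ← sum_mul, sum_const, card_univ, nsmul_eq_mul,
      mul_inv_cancel₀ hn.ne'] at h5
    have h6 : ∑ r, M r = 1 := h1
    rw [h6] at h5
    linarith
  rw [e2]
  linarith

end Copy

variable {V : Type} [Fintype V] (E : (Fin 3 → V) → Prop)

/-- The uniform law on the edges. -/
noncomputable def u0 (e : Fin 3 → V) : ℝ := if E e then (mE E)⁻¹ else 0

/-- The law of a uniform edge, as a function of the last two and of the first coordinate. -/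
noncomputable def m1 (r : V × V) (x : V) : ℝ := u0 E ![x, r.1, r.2]

/-- The law after copying the first coordinate. -/
noncomputable def m2 (r : V × V × V) (y : V) : ℝ := cp (m1 E) (y, r.2.2) r.1 r.2.1

/-- The law after copying the first two coordinates. -/
noncomputable def m3 (r : V × V × V × V) (z : V) : ℝ :=
  cp (m2 E) (r.1, r.2.1, z) r.2.2.1 r.2.2.2

/-- The law after copying all the coordinates. -/
noncomputable def al (s : St V) : ℝ :=
  cp (m3 E) (s.2 0, s.1 0, s.2 1, s.1 1) (s.2 2) (s.1 2)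

theorem tr1 (g : ℝ → ℝ) : ∑ r, ∑ x, g (m1 E r x) = ∑ e, g (u0 E e) := by
  rw [← Fintype.sum_prod_type']
  exact Fintype.sum_equiv
    { toFun := fun q : (V × V) × V => ![q.2, q.1.1, q.1.2]
      invFun := fun e => ((e 1, e 2), e 0)
      left_inv := fun q => rfl
      right_inv := fun e => by
        ext i
        fin_cases i <;> rfl } _ _ (fun _ => rfl)

theorem tr2 (g : ℝ → ℝ) :
    ∑ r, ∑ x, g (m2 E r x) = ∑ r, ∑ v, ∑ v', g (cp (m1 E) r v v') := by
  simp only [← Fintype.sum_prod_type']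
  exact Fintype.sum_equiv
    { toFun := fun q : (V × V × V) × V => ((q.2, q.1.2.2), q.1.1, q.1.2.1)
      invFun := fun q : (V × V) × V × V => ((q.2.1, q.2.2, q.1.2), q.1.1)
      left_inv := fun q => rfl
      right_inv := fun e => rfl } _ _ (fun _ => rfl)

theorem tr3 (g : ℝ → ℝ) :
    ∑ r, ∑ x, g (m3 E r x) = ∑ r, ∑ v, ∑ v', g (cp (m2 E) r v v') := by
  simp only [← Fintype.sum_prod_type']
  exact Fintype.sum_equiv
    { toFun := fun q : (V × V × V × V) × V => ((q.1.1, q.1.2.1, q.2), q.1.2.2.1, q.1.2.2.2)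
      invFun := fun q : (V × V × V) × V × V => ((q.1.1, q.1.2.1, q.2.1, q.2.2), q.1.2.2)
      left_inv := fun q => rfl
      right_inv := fun e => rfl } _ _ (fun _ => rfl)

theorem tr4 (g : ℝ → ℝ) :
    ∑ s, g (al E s) = ∑ r, ∑ v, ∑ v', g (cp (m3 E) r v v') := by
  simp only [← Fintype.sum_prod_type']
  exact Fintype.sum_equiv
    { toFun := fun s : St V => ((s.2 0, s.1 0, s.2 1, s.1 1), s.2 2, s.1 2)
      invFun := fun q : (V × V × V × V) × V × V =>
        (![q.1.2.1, q.1.2.2.2, q.2.2], ![q.1.1, q.1.2.2.1, q.2.1])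
      left_inv := fun s => by
        ext i <;> fin_cases i <;> rfl
      right_inv := fun e => rfl } _ _ (fun _ => rfl)

variable {E}

theorem u0_nonneg (e : Fin 3 → V) : 0 ≤ u0 E e := by
  unfold u0
  split_ifs
  · apply inv_nonneg.2
    unfold mE
    exact sum_nonneg fun _ _ => by split_ifs <;> norm_num
  · exact le_refl _

theorem m1_nonneg (r : V × V) (x : V) : 0 ≤ m1 E r x := u0_nonneg _

theorem m2_nonneg (r : V × V × V) (x : V) : 0 ≤ m2 E r x := cp_nonneg m1_nonneg _ _ _

theorem m3_nonneg (r : V × V × V × V) (x : V) : 0 ≤ m3 E r x := cp_nonneg m2_nonneg _ _ _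

theorem sum_u0 (hm : 0 < mE E) : ∑ e, u0 E e = 1 := by
  have h : ∀ e : Fin 3 → V, u0 E e = (mE E)⁻¹ * (if E e then 1 else 0) := by
    intro e
    unfold u0
    split_ifs <;> simp
  simp only [h]
  rw [← mul_sum]
  exact inv_mul_cancel₀ hm.ne'

theorem ent_u0 (hm : 0 < mE E) : ∑ e, eta (u0 E e) = Real.log (mE E) := by
  have h : ∀ e : Fin 3 → V, eta (u0 E e) = u0 E e * Real.log (mE E) := by
    intro e
    unfold eta u0
    split_ifs
    · rw [Real.log_inv, neg_neg]
    · simp
  simp only [h]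
  rw [← sum_mul, sum_u0 hm, one_mul]

theorem sum_m1 (hm : 0 < mE E) : ∑ r, ∑ x, m1 E r x = 1 := by
  have h := tr1 E fun x => x
  rw [h]
  exact sum_u0 hm

theorem sum_m2 (hm : 0 < mE E) : ∑ r, ∑ x, m2 E r x = 1 := by
  have h := tr2 E fun x => x
  rw [h]
  simp only [cp_sum m1_nonneg]
  exact sum_m1 hm

theorem sum_m3 (hm : 0 < mE E) : ∑ r, ∑ x, m3 E r x = 1 := by
  have h := tr3 E fun x => x
  rw [h]
  simp only [cp_sum m2_nonneg]
  exact sum_m2 hm

theorem al_ne {s : St V} (h : al E s ≠ 0) : Oct E s := by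
  obtain ⟨h1, h2⟩ := cp_ne h
  obtain ⟨h3, h4⟩ := cp_ne h1
  obtain ⟨h5, h6⟩ := cp_ne h2
  obtain ⟨a1, a2⟩ := cp_ne h3
  obtain ⟨a3, a4⟩ := cp_ne h4
  obtain ⟨a5, a6⟩ := cp_ne h5
  obtain ⟨a7, a8⟩ := cp_ne h6
  have key : ∀ x y z : V, m1 E (y, z) x ≠ 0 → E ![x, y, z] := by
    intro x y z hx
    by_contra hc
    exact hx (if_neg hc)
  replace a1 := key _ _ _ a1
  replace a2 := key _ _ _ a2
  replace a3 := key _ _ _ a3
  replace a4 := key _ _ _ a4
  replace a5 := key _ _ _ a5
  replace a6 := key _ _ _ a6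
  replace a7 := key _ _ _ a7
  replace a8 := key _ _ _ a8
  intro σ
  have hσ : (fun c => if σ c then s.1 c else s.2 c) =
      ![if σ 0 then s.1 0 else s.2 0, if σ 1 then s.1 1 else s.2 1,
        if σ 2 then s.1 2 else s.2 2] := by
    ext c
    fin_cases c <;> rfl
  rw [hσ]
  rcases σ 0 <;> rcases σ 1 <;> rcases σ 2 <;> simpa

theorem al_law : IsLaw E (al E) := by
  refine ⟨fun s => cp_nonneg m3_nonneg _ _ _, fun s hs => ?_, fun e => ?_⟩
  · have h := al_ne hs fun _ => false
    simpa using h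
  · have h1 : ∑ Z, al E (Z, e) = ∑ x', ∑ y', ∑ z',
        cp (m3 E) (e 0, x', e 1, y') (e 2) z' := by
      simp only [← Fintype.sum_prod_type']
      exact Fintype.sum_equiv
        { toFun := fun Z : Fin 3 → V => (Z 0, Z 1, Z 2)
          invFun := fun q : V × V × V => ![q.1, q.2.1, q.2.2]
          left_inv := fun s => by
            ext i
            fin_cases i <;> rfl
          right_inv := fun e => rfl } _ _ (fun _ => rfl)
    rw [h1]
    simp only [cp_sum m3_nonneg]
    change ∑ x', ∑ y', cp (m2 E) (e 0, x', e 2) (e 1) y' = _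
    simp only [cp_sum m2_nonneg]
    change ∑ x', cp (m1 E) (e 1, e 2) (e 0) x' = _
    simp only [cp_sum m1_nonneg]
    change u0 E ![e 0, e 1, e 2] = u0 E e
    congr 1
    ext i
    fin_cases i <;> rfl

theorem al_ent [Nonempty V] (hm : 0 < mE E) : 6 * LL V - 8 * DD E ≤ ent (al E) := by
  have h1 := cp_ent m1_nonneg (sum_m1 hm)
  have h2 := cp_ent m2_nonneg (sum_m2 hm)
  have h3 := cp_ent m3_nonneg (sum_m3 hm)
  rw [tr1 E eta, ent_u0 hm, ← tr2 E eta] at h1
  rw [← tr3 E eta] at h2
  rw [← tr4 E eta] at h3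
  have h4 : ent (al E) = ∑ s, eta (al E s) := rfl
  rw [h4]
  simp only [Fintype.card_prod, Nat.cast_mul] at h1 h2 h3
  have hn : (Fintype.card V : ℝ) ≠ 0 := by exact_mod_cast Fintype.card_ne_zero
  rw [Real.log_mul hn hn] at h1
  rw [Real.log_mul hn (mul_ne_zero hn hn), Real.log_mul hn hn] at h2
  rw [Real.log_mul hn (mul_ne_zero hn (mul_ne_zero hn hn)), Real.log_mul hn (mul_ne_zero hn hn),
    Real.log_mul hn hn] at h3
  unfold DD LL
  linarith

theorem al_lawC [Nonempty V] (hm : 0 < mE E) : LawC E (al E) := ⟨al_law, al_ent hm⟩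

/-- The main estimate for the number of closed walks. -/
theorem main_cnt [Nonempty V] (hm : 0 < mE E) (hD : 0 < DD E) {δ : ℝ} (hδ : 0 < δ) :
    ∃ k : ℕ, (k : ℝ) * δ ≤ 8 ∧ ∀ m p : ℕ,
      0 < ∑ s, (if Oct E s then cnt E (3 * (2 * k + m)) p s else 0) ∧
      6 * LL V - 8 * DD E + 6 * k * (LL V - 9 * DD E) + 3 * m * (LL V - (1 + δ) * DD E) ≤
        Real.log (∑ s, if Oct E s then cnt E (3 * (2 * k + m)) p s else 0) :=
  main_abs hm hD hδ (al_lawC hm) fun _ h => al_ne h

end Pool.Agent.V11142.TC
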