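import Pool.Agent.V11142.TC.Copy
import Pool.Agent.V11142.SidDefs

/-!
# Closed walks are homomorphisms of the tight cycle
-/

set_option autoImplicit false

namespace Pool.Agent.V11142.TC

open Finset Function
open Pool.Agent.V11142.SidDefs

/-- The edge `{i, i + 1, i + 2}` (modulo `n`). -/
def edge (n : ℕ) (i : Fin n) : Finset (Fin n) :=
  (range 3).image fun k => ⟨(i.val + k) % n, Nat.mod_lt _ i.pos⟩

/-- The 3-uniform tight cycle on `3 ℓ` vertices. -/
def tightCycle (ℓ : ℕ) : Finset (Finset (Fin (3 * ℓ))) := univ.image (edge (3 * ℓ))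

open scoped Classical

/-- The position in the window at `p` with residue `c`. -/
def pos (p : ℕ) (c : Fin 3) : ℕ := p + (c.val + 2 * p) % 3

theorem pos_lt (p : ℕ) (c : Fin 3) : pos p c < p + 3 := by
  unfold pos
  omega

theorem pos_succ (p : ℕ) (c : Fin 3) : pos (p + 1) c = if c = co p then p + 3 else pos p c := by
  have hc := c.2
  unfold pos co
  split_ifs with h
  · rw [Fin.ext_iff] at h
    simp only at h
    omega
  · rw [Fin.ext_iff] at h
    simp only at h
    omega

section

variable {V : Type}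

/-- The state of the walk `f` at the position `p`. -/
def stt (f : ℕ → V) (p : ℕ) : St V := (fun c => f c.val, fun c => f (pos p c))

theorem stt_update (f : ℕ → V) (p : ℕ) (w : V) :
    stt (update f (p + 3) w) (p + 1) = upd (co p) (stt f p) w := by
  refine Prod.ext ?_ ?_
  · funext c
    change update f (p + 3) w c.val = f c.val
    rw [update_of_ne]
    have := c.2
    omega
  · funext c
    change update f (p + 3) w (pos (p + 1) c) = update (fun c => f (pos p c)) (co p) w c
    rw [pos_succ]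
    by_cases hc : c = co p
    · subst hc
      simp
    · rw [if_neg hc, update_of_ne hc, update_of_ne]
      have := pos_lt p c
      omega

theorem stt_update_lt (f : ℕ → V) {q m : ℕ} (h : q + 3 ≤ m) (w : V) :
    stt (update f m w) q = stt f q := by
  refine Prod.ext ?_ ?_
  · funext c
    change update f m w c.val = f c.val
    rw [update_of_ne]
    have := c.2
    omega
  · funext c
    change update f m w (pos q c) = f (pos q c)
    rw [update_of_ne]
    have := pos_lt q c
    omega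

/-- The walk `f` is good up to the position `p`. -/
def GG (E : (Fin 3 → V) → Prop) (f : ℕ → V) (p : ℕ) : Prop :=
  Oct E (stt f 3) ∧ ∀ q, 3 ≤ q → q < p → E (stt f (q + 1)).2

theorem GG_update (E : (Fin 3 → V) → Prop) (f : ℕ → V) {p : ℕ} (hp : 3 ≤ p) (w : V) :
    GG E (update f (p + 3) w) (p + 1) ↔ GG E f p ∧ E (upd (co p) (stt f p) w).2 := by
  unfold GG
  rw [stt_update_lt f (by omega : 3 + 3 ≤ p + 3)]
  constructor
  · rintro ⟨h1, h2⟩
    refine ⟨⟨h1, fun q hq hqp => ?_⟩, ?_⟩
    · have := h2 q hq (by omega)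
      rwa [stt_update_lt f (by omega)] at this
    · have := h2 p hp (by omega)
      rwa [stt_update] at this
  · rintro ⟨⟨h1, h2⟩, h3⟩
    refine ⟨h1, fun q hq hqp => ?_⟩
    rcases Nat.lt_succ_iff_lt_or_eq.1 hqp with h | h
    · rw [stt_update_lt f (by omega)]
      exact h2 q hq h
    · subst h
      rw [stt_update]
      exact h3

/-- The extension of a function on an initial segment. -/
noncomputable def xt [Nonempty V] {m : ℕ} (φ : Fin m → V) (q : ℕ) : V :=
  if h : q < m then φ ⟨q, h⟩ else Classical.arbitrary V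

theorem xt_lt [Nonempty V] {m : ℕ} (φ : Fin m → V) {q : ℕ} (h : q < m) : xt φ q = φ ⟨q, h⟩ :=
  dif_pos h

/-- Adding a last value. -/
def snocE (V : Type) (m : ℕ) : (Fin m → V) × V ≃ (Fin (m + 1) → V) where
  toFun q := fun i => if h : i.val < m then q.1 ⟨i.val, h⟩ else q.2
  invFun φ := (fun i => φ ⟨i.val, by omega⟩, φ ⟨m, by omega⟩)
  left_inv q := by
    refine Prod.ext ?_ ?_
    · funext i
      simp
    · simp
  right_inv φ := by
    funext i
    by_cases h : i.val < m
    · simp [h]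
    · have h1 : i = ⟨m, by omega⟩ := Fin.ext (by have := i.2; simp only; omega)
      rw [h1]
      simp

theorem xt_snoc [Nonempty V] {m : ℕ} (ψ : Fin m → V) (w : V) :
    xt (snocE V m (ψ, w)) = update (xt ψ) m w := by
  funext q
  unfold xt snocE
  by_cases h : q = m
  · subst h
    simp
  · rw [update_of_ne h]
    by_cases h1 : q < m
    · simp [h1, (by omega : q < m + 1)]
    · rw [dif_neg (by omega), dif_neg h1]

variable [Fintype V]

/-- The number of pairs of a good initial walk and a continuation. -/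
noncomputable def AA [Nonempty V] (E : (Fin 3 → V) → Prop) (N p t : ℕ) : ℝ :=
  ∑ ψ : Fin N → V, if GG E (xt ψ) p then cnt E t p (stt (xt ψ) p) else 0

theorem AA_succ [Nonempty V] (E : (Fin 3 → V) → Prop) {p : ℕ} (hp : 3 ≤ p) (t : ℕ) :
    AA E (p + 3) p (t + 1) = AA E (p + 3 + 1) (p + 1) t := by
  have h := Fintype.sum_equiv (snocE V (p + 3))
    (fun q => if GG E (xt (snocE V (p + 3) q)) (p + 1) then
      cnt E t (p + 1) (stt (xt (snocE V (p + 3) q)) (p + 1)) else 0)
    (fun ψ => if GG E (xt ψ) (p + 1) then cnt E t (p + 1) (stt (xt ψ) (p + 1)) else 0)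
    (fun _ => rfl)
  refine Eq.trans ?_ h
  rw [Fintype.sum_prod_type]
  refine sum_congr rfl fun ψ _ => ?_
  simp only [xt_snoc, stt_update, GG_update _ _ hp]
  by_cases h1 : GG E (xt ψ) p
  · rw [if_pos h1]
    simp only [h1, true_and]
    rfl
  · simp [h1]

theorem AA_all [Nonempty V] (E : (Fin 3 → V) → Prop) {p : ℕ} (hp : 3 ≤ p) (t : ℕ) :
    AA E (p + 3) p t = AA E (p + 3 + t) (p + t) 0 := by
  induction t generalizing p with
  | zero => rfl
  | succ t ih =>
    rw [AA_succ E hp t]
    have e1 : p + 3 + 1 = (p + 1) + 3 := by ring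
    rw [e1, ih (by omega)]
    congr 1 <;> ring

/-- The first six values. -/
def sixE (V : Type) : (Fin 6 → V) ≃ St V where
  toFun ψ := (fun c => ψ ⟨c.val, by omega⟩, fun c => ψ ⟨3 + c.val, by omega⟩)
  invFun s := fun i => if h : i.val < 3 then s.1 ⟨i.val, h⟩ else s.2 ⟨i.val - 3, by omega⟩
  left_inv ψ := by
    funext i
    by_cases h : i.val < 3
    · simp [h]
    · simp only [h, dite_false]
      congr 1
      apply Fin.ext
      simp only
      omega
  right_inv s := by
    refine Prod.ext ?_ ?_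
    · funext c
      simp
    · funext c
      simp

theorem stt_six [Nonempty V] (ψ : Fin 6 → V) : stt (xt ψ) 3 = sixE V ψ := by
  refine Prod.ext ?_ ?_
  · funext c
    change xt ψ c.val = ψ ⟨c.val, by omega⟩
    exact xt_lt ψ _
  · funext c
    change xt ψ (pos 3 c) = ψ ⟨3 + c.val, by omega⟩
    have h1 : pos 3 c = 3 + c.val := by
      have := c.2
      unfold pos
      omega
    rw [h1]
    exact xt_lt ψ _

theorem AA_six [Nonempty V] (E : (Fin 3 → V) → Prop) (t : ℕ) :
    AA E 6 3 t = ∑ s, if Oct E s then cnt E t 3 s else 0 := by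
  unfold AA
  have h1 : ∀ ψ : Fin 6 → V, GG E (xt ψ) 3 ↔ Oct E (sixE V ψ) := by
    intro ψ
    unfold GG
    rw [stt_six]
    constructor
    · exact fun h => h.1
    · exact fun h => ⟨h, fun q h1 h2 => absurd h1 (by omega)⟩
  simp only [h1, stt_six]
  exact Fintype.sum_equiv (sixE V) _ _ fun _ => rfl

end

/-! ### Homomorphisms -/

section

variable {n : ℕ}

/-- The ordered edges of a 3-graph. -/
def EH (H : Finset (Finset (Fin n))) (e : Fin 3 → Fin n) : Prop := univ.image e ∈ H

theorem image_window (f : ℕ → Fin n) (i : ℕ) :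
    univ.image (stt f i).2 = (range 3).image fun k => f (i + k) := by
  ext v
  simp only [mem_image, mem_univ, true_and, mem_range]
  constructor
  · rintro ⟨c, rfl⟩
    exact ⟨(c.val + 2 * i) % 3, Nat.mod_lt _ (by norm_num), rfl⟩
  · rintro ⟨k, hk, rfl⟩
    refine ⟨⟨(i + k) % 3, Nat.mod_lt _ (by norm_num)⟩, ?_⟩
    change f (i + ((i + k) % 3 + 2 * i) % 3) = f (i + k)
    congr 1
    omega

theorem image_mix (σ : Fin 3 → Bool) (f : ℕ → Fin n) {ℓ : ℕ} (hℓ : 2 ≤ ℓ) {i : ℕ}
    (hi : i < 3 * ℓ) (h3 : 3 * ℓ - 3 ≤ i) (hσ : ∀ c : Fin 3, σ c = decide (c.val + 3 * ℓ < i + 3)) :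
    (univ.image fun c => if σ c then (stt f (3 * ℓ - 3)).1 c else (stt f (3 * ℓ - 3)).2 c) =
      (range 3).image fun k => f ((i + k) % (3 * ℓ)) := by
  have hpos : ∀ c : Fin 3, pos (3 * ℓ - 3) c = 3 * ℓ - 3 + c.val := by
    intro c
    have := c.2
    unfold pos
    omega
  have hval : ∀ c : Fin 3, (if σ c then (stt f (3 * ℓ - 3)).1 c else (stt f (3 * ℓ - 3)).2 c) =
      f (if c.val + 3 * ℓ < i + 3 then c.val else 3 * ℓ - 3 + c.val) := by
    intro c
    rw [hσ c]
    by_cases hc : c.val + 3 * ℓ < i + 3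
    · simp only [hc, decide_true, if_true]
      rfl
    · simp only [hc, decide_false, if_false]
      change f (pos (3 * ℓ - 3) c) = _
      rw [hpos]
  simp only [hval]
  ext v
  simp only [mem_image, mem_univ, true_and, mem_range]
  have hmod : ∀ k, k < 3 → (i + k) % (3 * ℓ) = if i + k < 3 * ℓ then i + k else i + k - 3 * ℓ := by
    intro k hk
    split_ifs with h
    · exact Nat.mod_eq_of_lt h
    · have e : i + k = (i + k - 3 * ℓ) + 3 * ℓ := by omega
      rw [e, Nat.add_mod_right, Nat.mod_eq_of_lt (by omega)]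
      omega
  constructor
  · rintro ⟨c, rfl⟩
    have hc := c.2
    by_cases h : c.val + 3 * ℓ < i + 3
    · refine ⟨c.val + 3 * ℓ - i, by omega, ?_⟩
      rw [hmod _ (by omega), if_pos h, if_neg (by omega)]
      congr 1
      omega
    · refine ⟨c.val + 3 * ℓ - 3 - i, by omega, ?_⟩
      rw [hmod _ (by omega), if_neg h, if_pos (by omega)]
      congr 1
      omega
  · rintro ⟨k, hk, rfl⟩
    rw [hmod k hk]
    by_cases h : i + k < 3 * ℓ
    · refine ⟨⟨i + k + 3 - 3 * ℓ, by omega⟩, ?_⟩
      rw [if_pos h, if_neg (by simp only; omega)]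
      congr 1
      simp only
      omega
    · refine ⟨⟨i + k - 3 * ℓ, by omega⟩, ?_⟩
      rw [if_neg h, if_pos (by simp only; omega)]

theorem is_hom [Nonempty (Fin n)] (H : Finset (Finset (Fin n))) {ℓ : ℕ} (hℓ : 2 ≤ ℓ)
    (ψ : Fin (3 * ℓ) → Fin n) (h1 : GG (EH H) (xt ψ) (3 * ℓ - 3))
    (h2 : Oct (EH H) (stt (xt ψ) (3 * ℓ - 3))) : ∀ e ∈ tightCycle ℓ, e.image ψ ∈ H := by
  intro e he
  obtain ⟨i, _, rfl⟩ := mem_image.1 he
  have hi := i.2
  have h3 : (edge (3 * ℓ) i).image ψ = (range 3).image fun k => xt ψ ((i.val + k) % (3 * ℓ)) := by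
    unfold edge
    rw [image_image]
    apply image_congr
    intro k _
    change ψ _ = xt ψ _
    rw [xt_lt]
  rw [h3]
  rcases Nat.lt_or_ge i.val (3 * ℓ - 3) with h4 | h4
  · have h5 : ((range 3).image fun k => xt ψ ((i.val + k) % (3 * ℓ))) =
        (range 3).image fun k => xt ψ (i.val + k) := by
      apply image_congr
      intro k hk
      have hk' : k < 3 := by simpa using hk
      simp only
      rw [Nat.mod_eq_of_lt (by omega)]
    rw [h5, ← image_window]
    rcases Nat.lt_or_ge i.val 4 with h6 | h6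
    · have h7 := h1.1 fun c => decide (i.val ≤ c.val)
      have h8 : (fun c : Fin 3 => if decide (i.val ≤ c.val) = true then (stt (xt ψ) 3).1 c else
          (stt (xt ψ) 3).2 c) = (stt (xt ψ) i.val).2 := by
        funext c
        have hc := c.2
        by_cases h : i.val ≤ c.val
        · simp only [h, decide_true, if_true]
          change xt ψ c.val = xt ψ (pos i.val c)
          congr 1
          unfold pos
          omega
        · simp only [h, decide_false]
          change xt ψ (pos 3 c) = xt ψ (pos i.val c)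
          congr 1
          unfold pos
          omega
      rw [h8] at h7
      exact h7
    · have h7 := h1.2 (i.val - 1) (by omega) (by omega)
      have e1 : i.val - 1 + 1 = i.val := by omega
      rw [e1] at h7
      exact h7
  · rw [← image_mix (fun c : Fin 3 => decide (c.val + 3 * ℓ < i.val + 3)) (xt ψ) hℓ hi h4
      (fun _ => rfl)]
    exact h2 _

theorem cnt_le_hom [Nonempty (Fin n)] (H : Finset (Finset (Fin n))) {ℓ : ℕ} (hℓ : 2 ≤ ℓ) :
    (∑ s, if Oct (EH H) s then cnt (EH H) (3 * (ℓ - 2)) 3 s else 0) ≤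
      (hom (tightCycle ℓ) H : ℝ) := by
  rw [← AA_six]
  have h1 := AA_all (EH H) (p := 3) (le_refl _) (3 * (ℓ - 2))
  have e1 : 3 + 3 + 3 * (ℓ - 2) = 3 * ℓ := by omega
  have e2 : 3 + 3 * (ℓ - 2) = 3 * ℓ - 3 := by omega
  rw [e1, e2] at h1
  have e3 : (3 + 3 : ℕ) = 6 := rfl
  rw [e3] at h1
  rw [h1]
  unfold AA hom
  rw [card_filter]
  push_cast
  refine sum_le_sum fun ψ _ => ?_
  by_cases h2 : GG (EH H) (xt ψ) (3 * ℓ - 3)
  · rw [if_pos h2]
    unfold cnt
    by_cases h3 : Oct (EH H) (stt (xt ψ) (3 * ℓ - 3))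
    · rw [if_pos h3, if_pos (is_hom H hℓ ψ h2 h3)]
    · rw [if_neg h3]
      split_ifs <;> norm_num
  · rw [if_neg h2]
    split_ifs <;> norm_num

theorem mE_eq (H : Finset (Finset (Fin n))) : mE (EH H) = (hom (K 3) H : ℝ) := by
  unfold mE hom
  rw [card_filter]
  push_cast
  refine sum_congr rfl fun φ _ => ?_
  have h : EH H φ ↔ ∀ e ∈ K 3, e.image φ ∈ H := by
    simp [EH, K]
  by_cases h1 : EH H φ
  · rw [if_pos h1, if_pos (h.1 h1)]
  · rw [if_neg h1, if_neg (fun hc => h1 (h.2 hc))]

theorem tK_lt_one [Nonempty (Fin n)] {H : Finset (Finset (Fin n))} (hH : IsRGraph 3 H) :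
    t (K 3) H < 1 := by
  have hn : (0 : ℝ) < Fintype.card (Fin n) := by exact_mod_cast Fintype.card_pos
  unfold t
  rw [div_lt_one (by positivity)]
  have h1 : hom (K 3) H < Fintype.card (Fin 3 → Fin n) := by
    unfold hom
    rw [← card_univ]
    apply card_lt_card
    rw [filter_ssubset]
    refine ⟨fun _ => Classical.arbitrary _, mem_univ _, fun hc => ?_⟩
    have h2 := hH _ (hc univ (by simp [K]))
    have h3 : (univ.image fun _ : Fin 3 => (Classical.arbitrary (Fin n))).card ≤ 1 := by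
      rw [card_le_one]
      intro a ha b hb
      obtain ⟨_, _, rfl⟩ := mem_image.1 ha
      obtain ⟨_, _, rfl⟩ := mem_image.1 hb
      rfl
    omega
  rw [Fintype.card_fun] at h1
  exact_mod_cast h1

theorem log_tK [Nonempty (Fin n)] (H : Finset (Finset (Fin n))) (h : 0 < t (K 3) H) :
    0 < mE (EH H) ∧ Real.log (t (K 3) H) = -DD (EH H) := by
  have hn : (0 : ℝ) < Fintype.card (Fin n) := by exact_mod_cast Fintype.card_pos
  have h1 : t (K 3) H = mE (EH H) / (Fintype.card (Fin n) : ℝ) ^ 3 := by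
    unfold t
    rw [mE_eq, Fintype.card_fin 3]
  have hm : 0 < mE (EH H) := by
    rw [h1] at h
    by_contra hc
    have := div_nonpos_of_nonpos_of_nonneg (not_lt.1 hc)
      (pow_nonneg hn.le 3)
    linarith
  refine ⟨hm, ?_⟩
  rw [h1, Real.log_div hm.ne' (by positivity), Real.log_pow]
  unfold DD LL
  push_cast
  ring

/-- The density bound. -/
theorem t_ge_rpow [Nonempty (Fin n)] {H : Finset (Finset (Fin n))} (hH : IsRGraph 3 H)
    (hpos : 0 < t (K 3) H) {δ : ℝ} (hδ : 0 < δ) {ℓ : ℕ} (hℓ : 2 + 16 / δ ≤ (ℓ : ℝ)) :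
    t (K 3) H ^ (8 + 432 / δ + 3 * (1 + δ) * ℓ) ≤ t (tightCycle ℓ) H := by
  have hn : (0 : ℝ) < Fintype.card (Fin n) := by exact_mod_cast Fintype.card_pos
  obtain ⟨hm, hlog⟩ := log_tK H hpos
  have hD : 0 < DD (EH H) := by
    have := Real.log_neg hpos (tK_lt_one hH)
    linarith
  obtain ⟨k, hk, hmain⟩ := main_cnt hm hD hδ
  have hk' : (k : ℝ) ≤ 8 / δ := by
    rw [le_div_iff₀ hδ]
    exact hk
  have hkℓ : 2 + 2 * k ≤ ℓ := by
    have h1 : (2 : ℝ) + 2 * k ≤ ℓ := by
      have h2 : 16 / δ = 2 * (8 / δ) := by ring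
      linarith
    exact_mod_cast h1
  obtain ⟨h1, h2⟩ := hmain (ℓ - 2 - 2 * k) 3
  have e1 : 3 * (2 * k + (ℓ - 2 - 2 * k)) = 3 * (ℓ - 2) := by omega
  rw [e1] at h1 h2
  have h3 := cnt_le_hom H (ℓ := ℓ) (by omega)
  have hhom : (0 : ℝ) < hom (tightCycle ℓ) H := lt_of_lt_of_le h1 h3
  have h4 := h2.trans (Real.log_le_log h1 h3)
  have ht : t (tightCycle ℓ) H = (hom (tightCycle ℓ) H : ℝ) /
      (Fintype.card (Fin n) : ℝ) ^ (3 * ℓ) := by
    unfold t
    rw [Fintype.card_fin (3 * ℓ)]
  have htpos : 0 < t (tightCycle ℓ) H := by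
    rw [ht]
    positivity
  have hlogt : Real.log (t (tightCycle ℓ) H) = Real.log (hom (tightCycle ℓ) H) -
      3 * ℓ * LL (Fin n) := by
    rw [ht, Real.log_div hhom.ne' (by positivity), Real.log_pow]
    unfold LL
    push_cast
    ring
  rw [← Real.log_le_log_iff (Real.rpow_pos_of_pos hpos _) htpos, Real.log_rpow hpos, hlog, hlogt]
  have hcast : ((ℓ - 2 - 2 * k : ℕ) : ℝ) = ℓ - 2 - 2 * k := by
    rw [Nat.cast_sub (by omega), Nat.cast_sub (by omega)]
    push_cast
    ring
  rw [hcast] at h4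
  have h5 : 0 ≤ (8 / δ - k) * DD (EH H) := mul_nonneg (by linarith) hD.le
  have h6 : 0 ≤ (k : ℝ) * DD (EH H) := by positivity
  have h7 : 0 ≤ (k : ℝ) * δ * DD (EH H) := by positivity
  have h8 : 432 / δ = 54 * (8 / δ) := by ring
  have h9 : 0 ≤ δ * DD (EH H) := by positivity
  rw [h8]
  nlinarith

end

end Pool.Agent.V11142.TC
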