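import Mathlib

/-!
# Laws on pairs of triples, resampling of a coordinate, entropy
-/

set_option autoImplicit false

namespace Pool.Agent.V11142.TC

open Finset Function
open scoped Classical

variable {V : Type} [Fintype V]

/-- A state: two triples. -/
abbrev St (V : Type) := (Fin 3 → V) × (Fin 3 → V)

/-- The state with a new value of the coordinate `i` of the second triple. -/
noncomputable def upd (i : Fin 3) (s : St V) (w : V) : St V := (s.1, update s.2 i w)

theorem upd_upd (i : Fin 3) (s : St V) (w w' : V) : upd i (upd i s w) w' = upd i s w' := by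
  simp [upd, update_idem]

theorem upd_self (i : Fin 3) (s : St V) : upd i s (s.2 i) = s := by
  simp [upd]

theorem upd_snd (i : Fin 3) (s : St V) (w : V) : (upd i s w).2 i = w := by
  simp [upd]

theorem sumE_swap (i : Fin 3) (F : (Fin 3 → V) → V → ℝ) :
    ∑ e, ∑ w, F (update e i w) (e i) = ∑ e, ∑ w, F e w := by
  rw [← Fintype.sum_prod_type', ← Fintype.sum_prod_type']
  refine Fintype.sum_bijective
    (fun q : (Fin 3 → V) × V => (update q.1 i q.2, q.1 i)) ?_ _ _ (fun _ => rfl)
  apply Function.Involutive.bijective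
  intro q
  simp [update_idem]

theorem sum_swap (i : Fin 3) (F : St V → V → ℝ) :
    ∑ s, ∑ w, F (upd i s w) (s.2 i) = ∑ s, ∑ w, F s w := by
  rw [Fintype.sum_prod_type, Fintype.sum_prod_type]
  refine sum_congr rfl fun Z _ => ?_
  exact sumE_swap i fun e w => F (Z, e) w

/-- The sum over the coordinate `i` of the second triple. -/
noncomputable def marg (i : Fin 3) (α : St V → ℝ) (s : St V) : ℝ := ∑ w, α (upd i s w)

theorem marg_upd (i : Fin 3) (α : St V → ℝ) (s : St V) (w : V) :
    marg i α (upd i s w) = marg i α s := by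
  simp [marg, upd_upd]

theorem sum_marg_mul (i : Fin 3) (α g : St V → ℝ) :
    ∑ s, marg i α s * g s = ∑ s, α s * ∑ w, g (upd i s w) := by
  have h := sum_swap i fun s w => α s * g (upd i s w)
  simp only [upd_upd, upd_self] at h
  simp only [marg, sum_mul, mul_sum]
  exact h

theorem sum_inv [Nonempty V] (i : Fin 3) {α β g : St V → ℝ}
    (hg : ∀ s w, g (upd i s w) = g s) (h : ∀ s, marg i α s = marg i β s) :
    ∑ s, α s * g s = ∑ s, β s * g s := by
  have h1 := sum_marg_mul i α g
  have h2 := sum_marg_mul i β g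
  simp only [hg, sum_const, card_univ, nsmul_eq_mul] at h1 h2
  have h3 : ∑ s, marg i α s * g s = ∑ s, marg i β s * g s :=
    sum_congr rfl fun s _ => by rw [h]
  rw [h1, h2] at h3
  have hn : (Fintype.card V : ℝ) ≠ 0 := by exact_mod_cast Fintype.card_ne_zero
  have e : ∀ γ : St V → ℝ, ∑ s, γ s * ((Fintype.card V : ℝ) * g s) =
      (Fintype.card V : ℝ) * ∑ s, γ s * g s := by
    intro γ
    rw [mul_sum]
    exact sum_congr rfl fun s _ => by ring
  rw [e, e] at h3
  exact mul_left_cancel₀ hn h3

theorem sum_marg (i : Fin 3) (α : St V → ℝ) :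
    ∑ s, marg i α s = (Fintype.card V : ℝ) * ∑ s, α s := by
  have h1 := sum_marg_mul i α fun _ => 1
  simp only [mul_one, sum_const, card_univ, nsmul_eq_mul] at h1
  rw [h1, mul_sum]
  exact sum_congr rfl fun s _ => by ring

variable (E : (Fin 3 → V) → Prop)

/-- The number of edges. -/
noncomputable def mE : ℝ := ∑ e : Fin 3 → V, if E e then 1 else 0

/-- The number of edges which agree with `e` outside the coordinate `i`. -/
noncomputable def dg (i : Fin 3) (e : Fin 3 → V) : ℝ := ∑ w, if E (update e i w) then 1 else 0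

theorem dg_upd (i : Fin 3) (e : Fin 3 → V) (w : V) : dg E i (update e i w) = dg E i e := by
  simp [dg, update_idem]

theorem dg_nonneg (i : Fin 3) (e : Fin 3 → V) : 0 ≤ dg E i e :=
  sum_nonneg fun w _ => by split_ifs <;> norm_num

theorem dg_pos {i : Fin 3} {e : Fin 3 → V} (h : E e) : 0 < dg E i e := by
  unfold dg
  refine sum_pos' (fun w _ => by split_ifs <;> norm_num) ⟨e i, mem_univ _, ?_⟩
  simp [h]

/-- A law on the states: it is supported on the states whose second triple is an edge, and the
second triple is uniformly distributed over the edges. -/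
structure IsLaw (α : St V → ℝ) : Prop where
  nonneg : ∀ s, 0 ≤ α s
  supp : ∀ s, α s ≠ 0 → E s.2
  unif : ∀ e, ∑ Z, α (Z, e) = if E e then (mE E)⁻¹ else 0

variable {E}

theorem IsLaw.sum_fun {α : St V → ℝ} (h : IsLaw E α) (g : (Fin 3 → V) → ℝ) :
    ∑ s, α s * g s.2 = ∑ e, (if E e then (mE E)⁻¹ else 0) * g e := by
  rw [Fintype.sum_prod_type_right]
  refine sum_congr rfl fun e _ => ?_
  rw [← h.unif e, sum_mul]

theorem IsLaw.sum_eq_one {α : St V → ℝ} (h : IsLaw E α) (hm : mE E ≠ 0) : ∑ s, α s = 1 := by
  have h1 := h.sum_fun fun _ => 1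
  simp only [mul_one] at h1
  rw [h1]
  have : ∀ e : Fin 3 → V, (if E e then (mE E)⁻¹ else 0) = (mE E)⁻¹ * (if E e then 1 else 0) := by
    intro e
    split_ifs <;> simp
  simp only [this]
  rw [← mul_sum]
  exact inv_mul_cancel₀ hm

/-- The entropy. -/
noncomputable def ent (α : St V → ℝ) : ℝ := ∑ s, α s * (-Real.log (α s))

/-- The conditional entropy of the coordinate `i` of the second triple. -/
noncomputable def cent (i : Fin 3) (α : St V → ℝ) : ℝ :=
  ∑ s, α s * (Real.log (marg i α s) - Real.log (α s))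

theorem ent_le [Nonempty V] {α : St V → ℝ} (h0 : ∀ s, 0 ≤ α s) (h1 : ∑ s, α s = 1) :
    ent α ≤ 6 * Real.log (Fintype.card V) := by
  have hn : (0 : ℝ) < Fintype.card V := by exact_mod_cast Fintype.card_pos
  set K : ℝ := (Fintype.card V : ℝ) ^ 6 with hK
  have hKpos : 0 < K := by positivity
  have hcard : (Fintype.card (St V) : ℝ) = K := by
    rw [Fintype.card_prod, Fintype.card_fun, Fintype.card_fin, hK]
    push_cast
    ring
  have hterm : ∀ s, α s * (-Real.log (α s)) ≤ K⁻¹ - α s + α s * Real.log K := by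
    intro s
    rcases eq_or_lt_of_le (h0 s) with hs | hs
    · rw [← hs]
      simp only [zero_mul, sub_zero, add_zero]
      positivity
    · have h2 := Real.log_le_sub_one_of_pos (x := (α s * K)⁻¹) (by positivity)
      rw [Real.log_inv, Real.log_mul hs.ne' hKpos.ne'] at h2
      have h3 : α s * (-(Real.log (α s) + Real.log K)) ≤ α s * ((α s * K)⁻¹ - 1) :=
        mul_le_mul_of_nonneg_left h2 hs.le
      have h4 : α s * ((α s * K)⁻¹ - 1) = K⁻¹ - α s := by
        field_simp
      rw [h4] at h3
      linarith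
  have h5 : ent α ≤ ∑ s, (K⁻¹ - α s + α s * Real.log K) := sum_le_sum fun s _ => hterm s
  rw [sum_add_distrib, sum_sub_distrib, ← sum_mul, h1, sum_const, card_univ, nsmul_eq_mul,
    hcard, mul_inv_cancel₀ hKpos.ne'] at h5
  have h6 : Real.log K = 6 * Real.log (Fintype.card V) := by
    rw [hK, Real.log_pow]
    norm_num
  rw [h6] at h5
  linarith

theorem sum_edge_div_dg_le [Nonempty V] (i : Fin 3) :
    ∑ e : Fin 3 → V, (if E e then (dg E i e)⁻¹ else 0) ≤ (Fintype.card V : ℝ) ^ 2 := by
  have hn : (0 : ℝ) < Fintype.card V := by exact_mod_cast Fintype.card_pos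
  have h := sumE_swap i fun (e : Fin 3 → V) (_ : V) => (if E e then (dg E i e)⁻¹ else 0)
  simp only [sum_const, card_univ, nsmul_eq_mul] at h
  rw [← mul_sum] at h
  have h2 : ∀ e : Fin 3 → V, ∑ w, (if E (update e i w) then (dg E i (update e i w))⁻¹ else 0) ≤
      1 := by
    intro e
    simp only [dg_upd]
    have : ∀ w, (if E (update e i w) then (dg E i e)⁻¹ else 0) =
        (if E (update e i w) then 1 else 0) * (dg E i e)⁻¹ := by
      intro w
      split_ifs <;> simp
    simp only [this]
    rw [← sum_mul]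
    change dg E i e * (dg E i e)⁻¹ ≤ 1
    exact mul_inv_le_one
  have h3 : (Fintype.card V : ℝ) * ∑ e : Fin 3 → V, (if E e then (dg E i e)⁻¹ else 0) ≤
      (Fintype.card V : ℝ) ^ 3 := by
    rw [← h]
    refine (sum_le_sum fun e _ => h2 e).trans ?_
    rw [sum_const, card_univ, nsmul_eq_mul, mul_one, Fintype.card_fun, Fintype.card_fin]
    push_cast
    exact le_refl _
  have h4 : (Fintype.card V : ℝ) * ∑ e : Fin 3 → V, (if E e then (dg E i e)⁻¹ else 0) ≤
      (Fintype.card V : ℝ) * (Fintype.card V : ℝ) ^ 2 := by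
    refine h3.trans (le_of_eq ?_)
    ring
  exact le_of_mul_le_mul_left h4 hn

theorem sum_log_dg_ge [Nonempty V] {α : St V → ℝ} (h : IsLaw E α) (hm : 0 < mE E) (i : Fin 3) :
    Real.log (mE E) - 2 * Real.log (Fintype.card V) ≤ ∑ s, α s * Real.log (dg E i s.2) := by
  have hn : (0 : ℝ) < Fintype.card V := by exact_mod_cast Fintype.card_pos
  rw [h.sum_fun fun e => Real.log (dg E i e)]
  set c : ℝ := mE E / (Fintype.card V : ℝ) ^ 2 with hc
  have hcpos : 0 < c := by positivity
  have hlc : Real.log c = Real.log (mE E) - 2 * Real.log (Fintype.card V) := by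
    rw [hc, Real.log_div hm.ne' (by positivity), Real.log_pow]
    norm_num
  rw [← hlc]
  have hterm : ∀ e : Fin 3 → V,
      (if E e then (mE E)⁻¹ else 0) * Real.log c + ((if E e then (mE E)⁻¹ else 0) -
        ((Fintype.card V : ℝ) ^ 2)⁻¹ * (if E e then (dg E i e)⁻¹ else 0)) ≤
      (if E e then (mE E)⁻¹ else 0) * Real.log (dg E i e) := by
    intro e
    by_cases he : E e
    · simp only [he, if_true]
      have hd : 0 < dg E i e := dg_pos E he
      have h2 := Real.one_sub_inv_le_log_of_pos (x := dg E i e / c) (by positivity)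
      rw [Real.log_div hd.ne' hcpos.ne'] at h2
      have h3 : (mE E)⁻¹ * (1 - (dg E i e / c)⁻¹) ≤
          (mE E)⁻¹ * (Real.log (dg E i e) - Real.log c) :=
        mul_le_mul_of_nonneg_left h2 (by positivity)
      have h4 : (mE E)⁻¹ * (1 - (dg E i e / c)⁻¹) =
          (mE E)⁻¹ - ((Fintype.card V : ℝ) ^ 2)⁻¹ * (dg E i e)⁻¹ := by
        rw [hc]
        field_simp
      rw [h4] at h3
      linarith
    · simp [he]
  have h5 := sum_le_sum fun (e : Fin 3 → V) (_ : e ∈ univ) => hterm e
  rw [sum_add_distrib, sum_sub_distrib, ← sum_mul, ← mul_sum] at h5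
  have h6 : ∑ e : Fin 3 → V, (if E e then (mE E)⁻¹ else 0) = 1 := by
    have : ∀ e : Fin 3 → V, (if E e then (mE E)⁻¹ else 0) =
        (mE E)⁻¹ * (if E e then 1 else 0) := by
      intro e
      split_ifs <;> simp
    simp only [this]
    rw [← mul_sum]
    exact inv_mul_cancel₀ hm.ne'
  rw [h6, one_mul] at h5
  have h7 : ((Fintype.card V : ℝ) ^ 2)⁻¹ * ∑ e : Fin 3 → V, (if E e then (dg E i e)⁻¹ else 0) ≤
      1 := by
    rw [inv_mul_le_iff₀ (by positivity), mul_one]
    exact sum_edge_div_dg_le i
  linarith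

/-! ### Resampling -/

/-- Resampling the coordinate `i` of the second triple. -/
noncomputable def Res (E : (Fin 3 → V) → Prop) (i : Fin 3) (α : St V → ℝ) (s : St V) : ℝ :=
  if E s.2 then marg i α s / dg E i s.2 else 0

theorem marg_nonneg {α : St V → ℝ} (h : ∀ s, 0 ≤ α s) (i : Fin 3) (s : St V) :
    0 ≤ marg i α s := sum_nonneg fun _ _ => h _

theorem le_marg {α : St V → ℝ} (h : ∀ s, 0 ≤ α s) (i : Fin 3) (s : St V) :
    α s ≤ marg i α s := by
  unfold marg
  have h1 := single_le_sum (f := fun w => α (upd i s w)) (fun w _ => h _) (mem_univ (s.2 i))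
  simp only [upd_self] at h1
  exact h1

theorem Res_marg {α : St V → ℝ} (h : IsLaw E α) (i : Fin 3) (s : St V) :
    marg i (Res E i α) s = marg i α s := by
  have h1 : marg i (Res E i α) s = dg E i s.2 * (marg i α s / dg E i s.2) := by
    unfold marg Res
    simp only [marg_upd]
    have h2 : ∀ w, (if E (upd i s w).2 then marg i α s / dg E i (upd i s w).2 else 0) =
        (if E (update s.2 i w) then 1 else 0) * (marg i α s / dg E i s.2) := by
      intro w
      have h3 : dg E i (upd i s w).2 = dg E i s.2 := dg_upd E i s.2 w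
      rw [h3]
      change (if E (update s.2 i w) then _ else _) = _
      split_ifs <;> simp
    rw [sum_congr rfl fun w _ => h2 w, ← sum_mul]
    rfl
  rw [h1]
  rcases eq_or_ne (dg E i s.2) 0 with h0 | h0
  · rw [h0, zero_mul]
    symm
    unfold marg
    refine sum_eq_zero fun w _ => ?_
    by_contra hc
    have h4 : E (update s.2 i w) := h.supp _ hc
    have h5 := dg_pos E (i := i) h4
    rw [dg_upd, h0] at h5
    exact lt_irrefl _ h5
  · exact mul_div_cancel₀ _ h0

theorem Res_law {α : St V → ℝ} (h : IsLaw E α) (i : Fin 3) : IsLaw E (Res E i α) := by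
  refine ⟨fun s => ?_, fun s hs => ?_, fun e => ?_⟩
  · unfold Res
    split_ifs
    · exact div_nonneg (marg_nonneg h.nonneg i s) (dg_nonneg E i _)
    · exact le_refl _
  · unfold Res at hs
    by_contra hc
    exact hs (if_neg hc)
  · unfold Res
    by_cases he : E e
    · simp only [he, if_true]
      rw [← sum_div]
      have h1 : ∑ Z, marg i α (Z, e) = (mE E)⁻¹ * dg E i e := by
        unfold marg
        rw [sum_comm]
        have h2 : ∀ w, ∑ Z, α (upd i (Z, e) w) =
            (mE E)⁻¹ * (if E (update e i w) then 1 else 0) := by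
          intro w
          have h3 := h.unif (update e i w)
          change ∑ Z, α (Z, update e i w) = _
          rw [h3]
          split_ifs <;> simp
        rw [sum_congr rfl fun w _ => h2 w, ← mul_sum]
        rfl
      rw [h1]
      exact mul_div_cancel_right₀ _ (dg_pos E he).ne'
    · simp [he]

theorem ent_Res [Nonempty V] {α : St V → ℝ} (h : IsLaw E α) (i : Fin 3) :
    ent (Res E i α) = ∑ s, α s * (Real.log (dg E i s.2) - Real.log (marg i α s)) := by
  have h1 : ent (Res E i α) =
      ∑ s, Res E i α s * (Real.log (dg E i s.2) - Real.log (marg i α s)) := by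
    unfold ent
    refine sum_congr rfl fun s _ => ?_
    by_cases hs : Res E i α s = 0
    · rw [hs, zero_mul, zero_mul]
    · have hE : E s.2 := (Res_law h i).supp s hs
      have hv : Res E i α s = marg i α s / dg E i s.2 := if_pos hE
      have hd := dg_pos E (i := i) hE
      have hm : marg i α s ≠ 0 := by
        intro hc
        rw [hv, hc, zero_div] at hs
        exact hs rfl
      rw [hv, Real.log_div hm hd.ne']
      ring
  rw [h1]
  refine sum_inv i (fun s w => ?_) (Res_marg h i)
  rw [marg_upd]
  have : (upd i s w).2 = update s.2 i w := rfl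
  rw [this, dg_upd]

theorem cent_eq [Nonempty V] {α : St V → ℝ} (h : IsLaw E α) (i : Fin 3) :
    cent i α = ∑ s, α s * Real.log (dg E i s.2) - (ent (Res E i α) - ent α) := by
  rw [ent_Res h i]
  unfold cent ent
  rw [← sum_sub_distrib, ← sum_sub_distrib]
  exact sum_congr rfl fun s _ => by ring

/-! ### One step of the chain -/

theorem step_ineq [Nonempty V] {β N' : St V → ℝ} (h : IsLaw E β) (hm : mE E ≠ 0) (i : Fin 3)
    (hN0 : ∀ s, 0 ≤ N' s) (hN : ∀ s, β s ≠ 0 → 0 < N' s) :
    ∑ s, β s * Real.log (N' s) + cent i β ≤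
      ∑ s, β s * Real.log (∑ w, if E (upd i s w).2 then N' (upd i s w) else 0) := by
  set NE : St V → ℝ := fun s => if E s.2 then N' s else 0 with hNE
  set N : St V → ℝ := fun s => ∑ w, NE (upd i s w) with hNd
  have hNE0 : ∀ s, 0 ≤ NE s := by
    intro s
    rw [hNE]
    dsimp only
    split_ifs
    · exact hN0 s
    · exact le_refl _
  have hNle : ∀ s, NE s ≤ N s := by
    intro s
    have h1 := single_le_sum (f := fun w => NE (upd i s w)) (fun w _ => hNE0 _) (mem_univ (s.2 i))
    simp only [upd_self] at h1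
    exact h1
  have hN0' : ∀ s, 0 ≤ N s := fun s => (hNE0 s).trans (hNle s)
  have hinv : ∀ s w, N (upd i s w) = N s := by
    intro s w
    rw [hNd]
    simp only [upd_upd]
  have hterm : ∀ s, β s - marg i β s * (NE s / N s) ≤
      β s * Real.log (N s) - (β s * Real.log (N' s) +
        β s * (Real.log (marg i β s) - Real.log (β s))) := by
    intro s
    by_cases hs : β s = 0
    · rw [hs]
      simp only [zero_mul, zero_sub, add_zero, sub_zero]
      have : 0 ≤ marg i β s * (NE s / N s) :=
        mul_nonneg (marg_nonneg h.nonneg i s) (div_nonneg (hNE0 s) (hN0' s))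
      linarith
    · have hb : 0 < β s := lt_of_le_of_ne (h.nonneg s) (Ne.symm hs)
      have hE : E s.2 := h.supp s hs
      have hNs : 0 < N' s := hN s hs
      have hNEs : NE s = N' s := if_pos hE
      have hNpos : 0 < N s := by
        refine lt_of_lt_of_le ?_ (hNle s)
        rw [hNEs]
        exact hNs
      have hmpos : 0 < marg i β s := lt_of_lt_of_le hb (le_marg h.nonneg i s)
      have h2 := Real.one_sub_inv_le_log_of_pos
        (x := (N s * β s) / (N' s * marg i β s)) (by positivity)
      rw [Real.log_div (by positivity) (by positivity), Real.log_mul hNpos.ne' hb.ne',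
        Real.log_mul hNs.ne' hmpos.ne', inv_div] at h2
      have h3 := mul_le_mul_of_nonneg_left h2 hb.le
      have h4 : β s * (1 - N' s * marg i β s / (N s * β s)) =
          β s - marg i β s * (NE s / N s) := by
        rw [hNEs]
        field_simp
      rw [h4] at h3
      linarith
  have h5 := sum_le_sum fun (s : St V) (_ : s ∈ univ) => hterm s
  rw [sum_sub_distrib, sum_sub_distrib, sum_add_distrib, h.sum_eq_one hm,
    sum_marg_mul i β fun s => NE s / N s] at h5
  have h6 : ∑ s, β s * ∑ w, NE (upd i s w) / N (upd i s w) ≤ 1 := by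
    rw [← h.sum_eq_one hm]
    refine sum_le_sum fun s _ => ?_
    simp only [hinv]
    rw [← sum_div]
    have h7 : (∑ w, NE (upd i s w)) / N s ≤ 1 := div_self_le_one _
    calc β s * ((∑ w, NE (upd i s w)) / N s) ≤ β s * 1 :=
          mul_le_mul_of_nonneg_left h7 (h.nonneg s)
      _ = β s := mul_one _
  have h8 : cent i β = ∑ s, β s * (Real.log (marg i β s) - Real.log (β s)) := rfl
  have h9 : ∑ s, β s * Real.log (∑ w, if E (upd i s w).2 then N' (upd i s w) else 0) =
      ∑ s, β s * Real.log (N s) := rfl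
  rw [h8, h9]
  linarith

end Pool.Agent.V11142.TC
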