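import Pool.Agent.V11142.TC.Hom

/-!
# Bounds for the Sidorenko exponents of tight cycles
-/

set_option autoImplicit false

namespace Pool.Agent.V11142.TC

open Finset Function
open Pool.Agent.V11142.SidDefs
open scoped ENNReal NNReal

/-- The 3-graph of the triples whose sum is divisible by `n`. -/
def HZ (n : ℕ) : Finset (Finset (Fin n)) :=
  univ.filter fun e => e.card = 3 ∧ n ∣ ∑ v ∈ e, v.val

theorem mem_HZ {n : ℕ} {e : Finset (Fin n)} : e ∈ HZ n ↔ e.card = 3 ∧ n ∣ ∑ v ∈ e, v.val := by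
  unfold HZ
  simp

theorem HZ_isRGraph (n : ℕ) : IsRGraph 3 (HZ n) := fun _ he => (mem_HZ.1 he).1

theorem HZ_dvd {n : ℕ} {f : ℕ → Fin n} (h : (range 3).image f ∈ HZ n) :
    n ∣ (f 0).val + (f 1).val + (f 2).val := by
  obtain ⟨h1, h2⟩ := mem_HZ.1 h
  have hinj : Set.InjOn f (range 3 : Finset ℕ) := by
    rw [← card_image_iff, h1, card_range]
  rw [sum_image hinj] at h2
  simpa [sum_range_succ] using h2

theorem fin_eq_of_mod {n : ℕ} {a b : Fin n} {c : ℕ} (h1 : n ∣ c + a.val) (h2 : n ∣ c + b.val) :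
    a = b := by
  have e : c + a.val ≡ c + b.val [MOD n] :=
    (Nat.modEq_zero_iff_dvd.2 h1).trans (Nat.modEq_zero_iff_dvd.2 h2).symm
  exact Fin.ext (Nat.ModEq.eq_of_lt_of_lt (Nat.ModEq.add_left_cancel' c e) a.2 b.2)

theorem hom_dvd {n ℓ : ℕ} (hℓ : 0 < 3 * ℓ) {φ : Fin (3 * ℓ) → Fin n}
    (hφ : ∀ e ∈ tightCycle ℓ, e.image φ ∈ HZ n) (q : ℕ) :
    n ∣ (φ ⟨q % (3 * ℓ), Nat.mod_lt _ hℓ⟩).val + (φ ⟨(q + 1) % (3 * ℓ), Nat.mod_lt _ hℓ⟩).val +
      (φ ⟨(q + 2) % (3 * ℓ), Nat.mod_lt _ hℓ⟩).val := by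
  have h1 := hφ (edge (3 * ℓ) ⟨q % (3 * ℓ), Nat.mod_lt _ hℓ⟩) (mem_image_of_mem _ (mem_univ _))
  have h2 : (edge (3 * ℓ) ⟨q % (3 * ℓ), Nat.mod_lt _ hℓ⟩).image φ =
      (range 3).image fun k => φ ⟨(q + k) % (3 * ℓ), Nat.mod_lt _ hℓ⟩ := by
    unfold edge
    rw [image_image]
    apply image_congr
    intro k _
    change φ _ = φ _
    congr 1
    apply Fin.ext
    simp only [Nat.mod_add_mod]
  rw [h2] at h1
  have h3 := HZ_dvd h1
  simpa using h3

theorem hom_le {n ℓ : ℕ} (hℓ : 0 < 3 * ℓ) : hom (tightCycle ℓ) (HZ n) ≤ n ^ 2 := by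
  have hcard : (univ : Finset (Fin n × Fin n)).card = n ^ 2 := by
    rw [card_univ, Fintype.card_prod, Fintype.card_fin]
    ring
  rw [← hcard]
  unfold hom
  apply card_le_card_of_injOn (fun φ => (φ ⟨0 % (3 * ℓ), Nat.mod_lt _ hℓ⟩,
    φ ⟨(0 + 1) % (3 * ℓ), Nat.mod_lt _ hℓ⟩)) (fun _ _ => mem_coe.2 (mem_univ _))
  intro φ hφ ψ hψ h
  rw [mem_coe, mem_filter] at hφ hψ
  have hφ' := hom_dvd hℓ hφ.2
  have hψ' := hom_dvd hℓ hψ.2
  simp only [Prod.mk.injEq] at h
  obtain ⟨h0, h1⟩ := h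
  set f : ℕ → Fin n := fun q => φ ⟨q % (3 * ℓ), Nat.mod_lt _ hℓ⟩ with hf
  set g : ℕ → Fin n := fun q => ψ ⟨q % (3 * ℓ), Nat.mod_lt _ hℓ⟩ with hg
  have key : ∀ q, f q = g q ∧ f (q + 1) = g (q + 1) := by
    intro q
    induction q with
    | zero => exact ⟨h0, h1⟩
    | succ q ih =>
      refine ⟨ih.2, ?_⟩
      have a1 : n ∣ (f q).val + (f (q + 1)).val + (f (q + 2)).val := hφ' q
      have a2 : n ∣ (g q).val + (g (q + 1)).val + (g (q + 2)).val := hψ' q
      rw [← ih.1, ← ih.2] at a2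
      exact fin_eq_of_mod a1 a2
  funext i
  have h2 := (key i.val).1
  have h3 : (⟨i.val % (3 * ℓ), Nat.mod_lt _ hℓ⟩ : Fin (3 * ℓ)) = i :=
    Fin.ext (Nat.mod_eq_of_lt i.2)
  simp only [hf, hg, h3] at h2
  exact h2

/-- The third vertex of the edge with the vertices `q.1` and `q.2`. -/
def zz {n : ℕ} (q : Fin n × Fin n) : Fin n :=
  ⟨(2 * n - q.1.val - q.2.val) % n, Nat.mod_lt _ q.1.pos⟩

theorem zz_dvd {n : ℕ} (q : Fin n × Fin n) : n ∣ q.1.val + q.2.val + (zz q).val := by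
  have h1 := q.1.2
  have h2 := q.2.2
  unfold zz
  simp only
  apply Nat.dvd_of_mod_eq_zero
  rw [Nat.add_mod_mod]
  have e : q.1.val + q.2.val + (2 * n - q.1.val - q.2.val) = 2 * n := by omega
  rw [e]
  exact Nat.mul_mod_left 2 n

theorem hom_K_ge (n : ℕ) : n ^ 2 ≤ hom (K 3) (HZ n) + 3 * n := by
  have hcard : (univ : Finset (Fin n × Fin n)).card = n ^ 2 := by
    rw [card_univ, Fintype.card_prod, Fintype.card_fin]
    ring
  set G : Finset (Fin n × Fin n) :=
    univ.filter fun q => univ.image ![q.1, q.2, zz q] ∈ HZ n with hG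
  set B1 : Finset (Fin n × Fin n) := univ.filter fun q => q.1 = q.2 with hB1
  set B2 : Finset (Fin n × Fin n) := univ.filter fun q => zz q = q.1 with hB2
  set B3 : Finset (Fin n × Fin n) := univ.filter fun q => zz q = q.2 with hB3
  have c0 : G.card ≤ hom (K 3) (HZ n) := by
    unfold hom
    apply card_le_card_of_injOn (fun q => ![q.1, q.2, zz q])
    · intro q hq
      rw [mem_coe, hG, mem_filter] at hq
      rw [mem_coe, mem_filter]
      refine ⟨mem_univ _, ?_⟩
      simp only [K, mem_singleton, forall_eq]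
      exact hq.2
    · intro q _ q' _ h
      have a0 := congrFun h 0
      have a1 := congrFun h 1
      exact Prod.ext a0 a1
  have c1 : B1.card ≤ n := by
    have h : B1.card ≤ (univ : Finset (Fin n)).card := by
      apply card_le_card_of_injOn (fun q => q.1) (fun _ _ => mem_coe.2 (mem_univ _))
      intro q hq q' hq' h
      rw [mem_coe, hB1, mem_filter] at hq hq'
      simp only at h
      exact Prod.ext h (by rw [← hq.2, ← hq'.2, h])
    rwa [card_univ, Fintype.card_fin] at h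
  have c2 : B2.card ≤ n := by
    have h : B2.card ≤ (univ : Finset (Fin n)).card := by
      apply card_le_card_of_injOn (fun q => q.1) (fun _ _ => mem_coe.2 (mem_univ _))
      intro q hq q' hq' h
      rw [mem_coe, hB2, mem_filter] at hq hq'
      simp only at h
      refine Prod.ext h ?_
      have a1 := zz_dvd q
      have a2 := zz_dvd q'
      rw [hq.2] at a1
      rw [hq'.2, ← h] at a2
      have e1 : q.1.val + q.2.val + q.1.val = (q.1.val + q.1.val) + q.2.val := by ring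
      have e2 : q.1.val + q'.2.val + q.1.val = (q.1.val + q.1.val) + q'.2.val := by ring
      rw [e1] at a1
      rw [e2] at a2
      exact fin_eq_of_mod a1 a2
    rwa [card_univ, Fintype.card_fin] at h
  have c3 : B3.card ≤ n := by
    have h : B3.card ≤ (univ : Finset (Fin n)).card := by
      apply card_le_card_of_injOn (fun q => q.2) (fun _ _ => mem_coe.2 (mem_univ _))
      intro q hq q' hq' h
      rw [mem_coe, hB3, mem_filter] at hq hq'
      simp only at h
      refine Prod.ext ?_ h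
      have a1 := zz_dvd q
      have a2 := zz_dvd q'
      rw [hq.2] at a1
      rw [hq'.2, ← h] at a2
      have e1 : q.1.val + q.2.val + q.2.val = (q.2.val + q.2.val) + q.1.val := by ring
      have e2 : q'.1.val + q.2.val + q.2.val = (q.2.val + q.2.val) + q'.1.val := by ring
      rw [e1] at a1
      rw [e2] at a2
      exact fin_eq_of_mod a1 a2
    rwa [card_univ, Fintype.card_fin] at h
  have hsub : (univ : Finset (Fin n × Fin n)) ⊆ G ∪ (B1 ∪ (B2 ∪ B3)) := by
    intro q _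
    simp only [mem_union]
    by_cases h1 : q ∈ B1
    · exact Or.inr (Or.inl h1)
    by_cases h2 : q ∈ B2
    · exact Or.inr (Or.inr (Or.inl h2))
    by_cases h3 : q ∈ B3
    · exact Or.inr (Or.inr (Or.inr h3))
    left
    simp only [hB1, hB2, hB3, mem_filter, mem_univ, true_and] at h1 h2 h3
    rw [hG, mem_filter]
    refine ⟨mem_univ _, ?_⟩
    have hinj : Injective ![q.1, q.2, zz q] := by
      intro i j hij
      fin_cases i <;> fin_cases j <;> first | rfl | (exfalso; simp at hij; tauto)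
    rw [mem_HZ]
    refine ⟨?_, ?_⟩
    · rw [card_image_of_injective _ hinj]
      simp
    · rw [sum_image fun i _ j _ h => hinj h, Fin.sum_univ_three]
      exact zz_dvd q
  have h1 := card_le_card hsub
  rw [hcard] at h1
  have h2 := card_union_le G (B1 ∪ (B2 ∪ B3))
  have h3 := card_union_le B1 (B2 ∪ B3)
  have h4 := card_union_le B2 B3
  omega

/-- The lower bound. -/
theorem lower {ℓ : ℕ} (hℓ : 3 ≤ ℓ) {M : ℕ} (hM : 3 ≤ M) :
    ENNReal.ofReal ((3 * ℓ - 2) * (M / (M + 1))) ≤ sidorenkoExponent 3 (tightCycle ℓ) := by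
  set n := 2 ^ M with hn
  have hn8 : 8 ≤ n := by
    calc 8 = 2 ^ 3 := rfl
      _ ≤ 2 ^ M := Nat.pow_le_pow_right (by norm_num) hM
  haveI : Nonempty (Fin n) := ⟨⟨0, by omega⟩⟩
  have hnR : (0 : ℝ) < n := by
    have : 0 < n := by omega
    exact_mod_cast this
  have hn8R : (8 : ℝ) ≤ n := by exact_mod_cast hn8
  have hlog2 : 0 < Real.log 2 := Real.log_pos (by norm_num)
  have hlogn : Real.log n = M * Real.log 2 := by
    rw [hn]
    push_cast
    rw [Real.log_pow]
  have hK : 1 / (2 * (n : ℝ)) ≤ t (K 3) (HZ n) := by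
    unfold t
    rw [Fintype.card_fin, Fintype.card_fin]
    have h1 := hom_K_ge n
    have h2 : (n : ℝ) ^ 2 ≤ hom (K 3) (HZ n) + 3 * n := by exact_mod_cast h1
    rw [div_le_div_iff₀ (by positivity) (by positivity)]
    nlinarith [sq_nonneg (n : ℝ)]
  have hKpos : 0 < t (K 3) (HZ n) := lt_of_lt_of_le (by positivity) hK
  have hℓR : (3 : ℝ) ≤ ℓ := by exact_mod_cast hℓ
  have hCge := t_ge_rpow (HZ_isRGraph n) hKpos (δ := 16) (by norm_num) (ℓ := ℓ)
    (by norm_num; linarith)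
  have hCpos : 0 < t (tightCycle ℓ) (HZ n) :=
    lt_of_lt_of_le (Real.rpow_pos_of_pos hKpos _) hCge
  have hCle : t (tightCycle ℓ) (HZ n) ≤ (n : ℝ) ^ 2 / (n : ℝ) ^ (3 * ℓ) := by
    unfold t
    rw [Fintype.card_fin, Fintype.card_fin]
    have h1 : (hom (tightCycle ℓ) (HZ n) : ℝ) ≤ (n : ℝ) ^ 2 := by
      exact_mod_cast hom_le (n := n) (ℓ := ℓ) (by omega)
    exact div_le_div_of_nonneg_right h1 (by positivity)
  have hK1 := tK_lt_one (HZ_isRGraph n)
  have hlogK : Real.log (t (K 3) (HZ n)) < 0 := Real.log_neg hKpos hK1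
  have hlogK2 : -((M + 1) * Real.log 2) ≤ Real.log (t (K 3) (HZ n)) := by
    have h1 := Real.log_le_log (by positivity) hK
    rw [one_div, Real.log_inv, Real.log_mul (by norm_num) hnR.ne', hlogn] at h1
    linarith
  have hlogC : Real.log (t (tightCycle ℓ) (HZ n)) ≤ -((3 * ℓ - 2) * (M * Real.log 2)) := by
    have h1 := Real.log_le_log hCpos hCle
    rw [Real.log_div (by positivity) (by positivity), Real.log_pow, Real.log_pow, hlogn] at h1
    push_cast at h1
    linarith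
  set s : ℝ := Real.log (t (tightCycle ℓ) (HZ n)) / Real.log (t (K 3) (HZ n)) with hs
  have hs1 : (3 * (ℓ : ℝ) - 2) * (M / (M + 1)) ≤ s := by
    rw [hs, ← neg_div_neg_eq (Real.log (t (tightCycle ℓ) (HZ n))), le_div_iff₀ (by linarith)]
    have h1 : 0 ≤ (3 * (ℓ : ℝ) - 2) * (M / (M + 1)) :=
      mul_nonneg (by linarith) (by positivity)
    calc (3 * (ℓ : ℝ) - 2) * (M / (M + 1)) * -Real.log (t (K 3) (HZ n))
        ≤ (3 * (ℓ : ℝ) - 2) * (M / (M + 1)) * ((M + 1) * Real.log 2) :=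
          mul_le_mul_of_nonneg_left (by linarith) h1
      _ = (3 * ℓ - 2) * (M * Real.log 2) := by
          field_simp
      _ ≤ -Real.log (t (tightCycle ℓ) (HZ n)) := by linarith
  have hs0 : 0 ≤ s := le_trans (mul_nonneg (by linarith) (by positivity)) hs1
  refine (ENNReal.ofReal_le_ofReal hs1).trans ?_
  unfold sidorenkoExponent
  refine le_iSup₂_of_le (Real.toNNReal s) ⟨n, HZ n, HZ_isRGraph n, ?_, hCpos⟩ (le_refl _)
  rw [Real.coe_toNNReal _ hs0, Real.rpow_def_of_pos hKpos, hs, mul_div_cancel₀ _ hlogK.ne,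
    Real.exp_log hCpos]

/-- The upper bound. -/
theorem upper {ℓ : ℕ} {δ : ℝ} (hδ : 0 < δ) (hℓ : 2 + 16 / δ ≤ (ℓ : ℝ)) :
    sidorenkoExponent 3 (tightCycle ℓ) ≤
      ENNReal.ofReal (8 + 432 / δ + 3 * (1 + δ) * ℓ) := by
  unfold sidorenkoExponent
  apply iSup₂_le
  rintro s ⟨n, H, hH, hts, htpos⟩
  have hgoal : (s : ℝ) ≤ 8 + 432 / δ + 3 * (1 + δ) * ℓ := by
    by_contra hcon
    push Not at hcon
    have hs0 : (0 : ℝ) < s := lt_of_le_of_lt (by positivity) hcon
    have hK0 : 0 < t (K 3) H := by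
      have h1 : 0 ≤ t (K 3) H := by unfold t; positivity
      rcases h1.eq_or_lt with h2 | h2
      · rw [← h2, Real.zero_rpow hs0.ne'] at hts
        linarith
      · exact h2
    have hhom : 0 < hom (K 3) H := by
      by_contra hc
      have h1 : hom (K 3) H = 0 := by omega
      unfold t at hK0
      rw [h1] at hK0
      simp at hK0
    obtain ⟨φ, hφ⟩ := card_pos.1 hhom
    haveI : Nonempty (Fin n) := ⟨φ 0⟩
    have h1 := t_ge_rpow hH hK0 hδ hℓ
    have h2 := Real.rpow_lt_rpow_of_exponent_gt hK0 (tK_lt_one hH) hcon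
    rw [← hts] at h2
    linarith
  rw [← ENNReal.ofReal_coe_nnreal]
  exact ENNReal.ofReal_le_ofReal hgoal

end Pool.Agent.V11142.TC
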